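import Mathlib
import Pool.Agent.P.MP_3bd355_an.Bh.Main

namespace Pool.Agent.Results.MP_3bd355_an.Collinear

open Set InnerProductSpace Pool.Agent.P.MP_3bd355_an

/-- The case `z₁ = x > 0`, `z₀ = y` real with `y < x` (opposite ray, or same ray behind `z₁`):
one radial slit function `v` is the unique extremal function for all these `y`, and `M` is
explicit (it is the largest, respectively smallest, value of `M` on the circle `|z₀| = |y|`). -/
theorem result (r A B x : ℝ) (hr : 0 < r) (hx : r < x) (hx1 : x < 1) (hA : A ≤ 0)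
    (hh : 0 < hf r A B x) :
    ∃ (κ R : ℝ) (v : ℂ → ℝ),
      (∀ κ' : ℝ, (κ' ≤ (Kc r x 1).re ∧ B * Jint r x κ' 1 x 1 = -A * Jint r x κ' 1 r x) ↔ κ' = κ) ∧
      0 < Jint r x κ 1 r x ∧ x < R ∧ R ≤ 1 ∧ (Kc r x R).re = κ ∧
      HarmonicOnNhd v (ann r \ seg x R) ∧ (∀ z ∈ ann r, z ∈ seg x R → v z = 0) ∧
      (∀ z ∈ ann r \ seg x R,
        (z * grad v z) ^ 2 = ((B / Jint r x κ 1 r x : ℝ) : ℂ) ^ 2 * (Kc r x z - κ)) ∧
      ∀ y : ℝ, (y : ℂ) ∈ ann r → y < x →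
        (∀ u : ℂ → EReal, (Adm r A B x u ∧ u y = Msup r A B y x) ↔
          ∀ z ∈ ann r, u z = (v z : EReal)) ∧
        (y < 0 →
          Msup r A B y x = ((A + B * Jint r x κ (-1) (-y) 1 / Jint r x κ 1 r x : ℝ) : EReal) ∧
          ∀ z : ℂ, ‖z‖ = -y → Msup r A B z x ≤ Msup r A B y x) ∧
        (0 < y → Msup r A B y x = ((B * Jint r x κ 1 y x / Jint r x κ 1 r x : ℝ) : EReal) ∧
          ∀ z : ℂ, ‖z‖ = y → Msup r A B y x ≤ Msup r A B z x) := by
  obtain ⟨κ, R, v, h1, h2, h3, h4, h5, h6, h7, h8, h9, h10⟩ := collinear r A B x hr hx hx1 hA hh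
  refine ⟨κ, R, v, h1, h2, h3, h4, h5, h6, h7, h8, fun y hy hyx => ?_⟩
  have n1 : r < |y| := by simpa using hy.1
  have n2 : |y| < 1 := by simpa using hy.2
  rcases lt_or_ge y 0 with h | h
  · rw [abs_of_neg h] at n1 n2
    have k := h9 (-y) n1 n2
    rw [Complex.ofReal_neg, neg_neg] at k
    exact ⟨k.2.2, fun _ => ⟨k.1, k.2.1⟩, fun h' => absurd h h'.not_gt⟩
  · rw [abs_of_nonneg h] at n1
    have k := h10 y n1 hyx
    exact ⟨k.2.2, fun h' => absurd h' h.not_gt, fun _ => ⟨k.1, k.2.1⟩⟩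

end Pool.Agent.Results.MP_3bd355_an.Collinear
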