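import Mathlib
import Pool.Agent.P.MP_3bd355_an.T.All

namespace Pool.Agent.Results.MP_3bd355_an.Explicit

open Set Pool.Agent.P.MP_3bd355_an

/-- The case `A < 0`, all positions of `z₀ ≠ z₁`: `M` is the largest value of the hyperelliptic
integral over the critical configurations in explicit form, and the extremal functions are the
functions of the maximal configurations with three disjoint slits. -/
theorem result (r A B : ℝ) (z₀ z₁ : ℂ) (hr : 0 < r) (h₀ : z₀ ∈ ann r) (h₁ : z₁ ∈ ann r)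
    (hA : A < 0) (hh : 0 < hf r A B z₁) (hne : z₀ ≠ z₁) :
    IsGreatest {x : EReal | ∃ (a b : ℂ) (c : ℝ) (κ : ℝ → ℂ) (v g : ℂ → ℝ) (e : Fin 5 → ℝ)
        (C l₀ l₁ : ℝ) (f : ℂ → ℂ), Crit r A B z₀ z₁ a b c κ v g ∧
        Form r A B z₀ κ v g e C l₀ l₁ f ∧ x = (HV C e (f z₀) : EReal)} (Msup r A B z₀ z₁) ∧
      ∀ u : ℂ → EReal, (Adm r A B z₁ u ∧ u z₀ = Msup r A B z₀ z₁) ↔
        ∃ (a b : ℂ) (c : ℝ) (κ : ℝ → ℂ) (v g : ℂ → ℝ) (e : Fin 5 → ℝ) (C l₀ l₁ : ℝ) (f : ℂ → ℂ),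
          Crit r A B z₀ z₁ a b c κ v g ∧ Form r A B z₀ κ v g e C l₀ l₁ f ∧ e 0 < e 1 ∧
          (HV C e (f z₀) : EReal) = Msup r A B z₀ z₁ ∧ ∀ z ∈ ann r, u z = (v z : EReal) :=
  explicit_thm r A B z₀ z₁ hr h₀ h₁ hA hh hne

end Pool.Agent.Results.MP_3bd355_an.Explicit
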