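import Mathlib
import Pool.Agent.P.MP_3bd355_an.AllNa

namespace Pool.Agent.Results.MP_3bd355_an.NotAttained

open Set Pool.Agent.P.MP_3bd355_an

/-- The supremum is not attained when `z₁` is close to a point `b₀` of the inner circle that is
not on the line through `0` and `z₀`. -/
theorem result (r A B : ℝ) (z₀ b₀ : ℂ) (hr : 0 < r) (h₀ : z₀ ∈ ann r) (hA : A ≤ 0) (hB : 0 < B)
    (hb : ‖b₀‖ = r) (hl : (z₀ / b₀).im ≠ 0) :
    ∃ d : ℝ, 0 < d ∧ ∀ s ∈ Ioo (1 : ℝ) (1 + d), s * b₀ ∈ ann r ∧ 0 < hf r A B (s * b₀) ∧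
      ∀ u : ℂ → EReal, Adm r A B (s * b₀) u → u z₀ < Msup r A B z₀ (s * b₀) :=
  all_NA r A B z₀ b₀ hr h₀ hA hB hb hl

end Pool.Agent.Results.MP_3bd355_an.NotAttained
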