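import Mathlib
import Pool.Agent.P.MP_3bd355_an.Z.Fin

namespace Pool.Agent.Results.MP_3bd355_an.ZeroOuter

open Set Complex Pool.Agent.P.MP_3bd355_an
open scoped ComplexConjugate Real

/-- The case `A = 0`, normalised by `z₀ = x₀ > 0` and `Im z₁ ≤ 0`: there is exactly one critical
configuration with arc in the lower half plane; it gives `M`, decides attainment and gives all
extremal functions; `M` is read off from the conformal map of the slit annulus. -/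
theorem result (r B x₀ : ℝ) (z₁ : ℂ) (hr : 0 < r) (h₀ : r < x₀) (h₀' : x₀ < 1) (h₁ : z₁ ∈ ann r)
    (hB : 0 < B) (hi : z₁.im ≤ 0) (hne : z₁ ≠ x₀) :
    ∃ (a b : ℂ) (c : ℝ) (κ : ℝ → ℂ) (v g : ℂ → ℝ), Crit r 0 B x₀ z₁ a b c κ v g ∧
      (∀ t ∈ Icc (0 : ℝ) 1, (κ t).im ≤ 0) ∧
      (∀ (a' b' : ℂ) (c' : ℝ) (κ' : ℝ → ℂ) (v' g' : ℂ → ℝ), Crit r 0 B x₀ z₁ a' b' c' κ' v' g' →
        (∀ t ∈ Icc (0 : ℝ) 1, (κ' t).im ≤ 0) → a' = a ∧ b' = b ∧ c' = c ∧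
          κ' '' Icc 0 1 = κ '' Icc 0 1 ∧ EqOn v' v (ann r)) ∧
      Msup r 0 B x₀ z₁ = v x₀ ∧
      (∀ u : ℂ → EReal, (Adm r 0 B z₁ u ∧ u x₀ = Msup r 0 B x₀ z₁) ↔
        (∀ t ∈ Icc (0 : ℝ) 1, r < ‖κ t‖) ∧
          ((∀ z ∈ ann r, u z = v z) ∨ (z₁.im = 0 ∧ ∀ z ∈ ann r, u z = v (conj z)))) ∧
      ((∀ t ∈ Icc (0 : ℝ) 1, r < ‖κ t‖) → ∃ (ρ m : ℝ) (φ : ℂ → ℂ), 0 < ρ ∧ ρ < 1 ∧ 0 < m ∧ m < 1 ∧
        DifferentiableOn ℂ φ (ann r \ κ '' Icc 0 1) ∧ BijOn φ (ann r \ κ '' Icc 0 1) (ann ρ) ∧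
        φ x₀ = (ρ ^ m : ℝ) ∧ v x₀ = B * m ∧
        (∀ z ∈ ann r \ κ '' Icc 0 1, v z = B * Real.log ‖φ z‖ / Real.log ρ) ∧
        ∀ z ∈ ann r \ κ '' Icc 0 1, z ≠ x₀ → QD r x₀ z₁ a b c z * φ z ^ 2 =
          deriv φ z ^ 2 * ((B / Real.log ρ : ℝ) *
            (m + (vk ρ (φ z / (ρ ^ m : ℝ)) - vk ρ (φ z * (ρ ^ m : ℝ))) / 2))) ∧
      (¬ (∀ t ∈ Icc (0 : ℝ) 1, r < ‖κ t‖) → ∃ (θ : ℝ) (φ : ℂ → ℂ), 0 < θ ∧ θ < π ∧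
        DifferentiableOn ℂ φ (ann r \ κ '' Icc 0 1) ∧
        BijOn φ (ann r \ κ '' Icc 0 1) {w | 0 < w.re ∧ w.re < π} ∧ φ x₀ = θ ∧ v x₀ = B * θ / π ∧
        (∀ z ∈ ann r \ κ '' Icc 0 1, v z = B * (φ z).re / π) ∧
        ∀ z ∈ ann r \ κ '' Icc 0 1, z ≠ x₀ → QD r x₀ z₁ a b c z =
          deriv φ z ^ 2 * ((B / π * Real.sin θ : ℝ) / (cos (φ z) - cos θ))) :=
  zero_thm r B x₀ z₁ hr h₀ h₀' h₁ hB hi hne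

end Pool.Agent.Results.MP_3bd355_an.ZeroOuter
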